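import Mathlib

/-!
Averaging over tuples (`avg`), and the number of tuples which contain a bad subtuple (`card_exists`).
-/

set_option autoImplicit false

open Finset

namespace Pool.Agent.H93.MG

variable {V : Type}

/-- the exchange of the coordinates in the range of `h` with the coordinates of a second vector -/
noncomputable def ex {r k : ℕ} (h : Fin r → Fin k) (p : (Fin k → V) × (Fin r → V)) :
    (Fin k → V) × (Fin r → V) := (Function.extend h p.2 p.1, p.1 ∘ h)

lemma ex_invol {r k : ℕ} {h : Fin r → Fin k} (hh : Function.Injective h) :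
    Function.Involutive (ex (V := V) h) := by
  rintro ⟨f, v⟩
  refine Prod.ext ?_ ?_
  · funext x
    show Function.extend h (f ∘ h) (Function.extend h v f) x = f x
    by_cases hx : ∃ y, h y = x
    · obtain ⟨y, rfl⟩ := hx
      rw [hh.extend_apply]
      rfl
    · rw [Function.extend_apply' _ _ _ hx, Function.extend_apply' _ _ _ hx]
  · funext y
    show Function.extend h v f (h y) = v y
    rw [hh.extend_apply]

variable [Fintype V]

lemma sum_comp {r k : ℕ} {h : Fin r → Fin k} (hh : Function.Injective h) (G : (Fin r → V) → ℝ) :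
    (∑ f : Fin k → V, G (f ∘ h)) * (Fintype.card V : ℝ) ^ r =
      (Fintype.card V : ℝ) ^ k * ∑ v, G v := by
  classical
  have h1 : ∑ p : (Fin k → V) × (Fin r → V), G (p.1 ∘ h) = ∑ p : (Fin k → V) × (Fin r → V), G p.2 :=
    Equiv.sum_comp ((ex_invol (V := V) hh).toPerm _) (fun p : (Fin k → V) × (Fin r → V) => G p.2)
  rw [Fintype.sum_prod_type, Fintype.sum_prod_type] at h1
  simp only [Finset.sum_const, Finset.card_univ, Fintype.card_fun, Fintype.card_fin, nsmul_eq_mul] at h1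
  push_cast at h1
  rw [← h1, Finset.sum_mul]
  refine Finset.sum_congr rfl fun f _ => ?_
  ring

lemma sum_three (t : V → V → V → ℝ) :
    ∑ v : Fin 3 → V, t (v 0) (v 1) (v 2) = ∑ a, ∑ b, ∑ d, t a b d := by
  let e : (Fin 3 → V) ≃ V × V × V :=
    ⟨fun v => (v 0, v 1, v 2), fun p => ![p.1, p.2.1, p.2.2], by
      intro v; funext i; fin_cases i <;> rfl, by rintro ⟨a, b, c⟩; rfl⟩
  have h1 : ∑ v : Fin 3 → V, t (v 0) (v 1) (v 2) = ∑ p : V × V × V, t p.1 p.2.1 p.2.2 :=
    Fintype.sum_equiv e _ _ fun v => rfl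
  rw [h1, Fintype.sum_prod_type]
  refine Finset.sum_congr rfl fun a _ => ?_
  rw [Fintype.sum_prod_type]

lemma triple {k : ℕ} (t : V → V → V → ℝ) {i j l : Fin k} (h1 : i ≠ j) (h2 : j ≠ l) (h3 : i ≠ l) :
    (∑ f : Fin k → V, t (f i) (f j) (f l)) * (Fintype.card V : ℝ) ^ 3 =
      (Fintype.card V : ℝ) ^ k * ∑ a, ∑ b, ∑ d, t a b d := by
  have hinj : Function.Injective ![i, j, l] := by
    intro x y hxy
    fin_cases x <;> fin_cases y <;> simp_all
  have := sum_comp (V := V) hinj (fun v => t (v 0) (v 1) (v 2))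
  rw [sum_three] at this
  exact this

end Pool.Agent.H93.MG

namespace Pool.Agent.H63.MG

open Pool.Agent.H93.MG

theorem avg {V : Type} [Fintype V] [Nonempty V] (t : V → V → V → ℝ) (h0 : ∀ a b c, 0 ≤ t a b c)
    (h1 : ∀ a b c, t a b c ≤ 1) (k : ℕ) (hk : 1 ≤ k) (c β : ℝ) (hc : 0 ≤ c)
    (Bad : Finset (Fin k → V)) (hB : (Bad.card : ℝ) ≤ β * (Fintype.card V : ℝ) ^ k)
    (h : ∀ f : Fin k → V, f ∉ Bad → c * (k : ℝ) ^ 3 ≤ ∑ i, ∑ j, ∑ l, t (f i) (f j) (f l)) :
    (c * (1 - β) - 3 / k) * (Fintype.card V : ℝ) ^ 3 ≤ ∑ a, ∑ b, ∑ d, t a b d := by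
  classical
  obtain ⟨n, hn⟩ : ∃ n : ℝ, n = (Fintype.card V : ℝ) := ⟨_, rfl⟩
  have hn0 : 0 < n := by rw [hn]; exact_mod_cast Fintype.card_pos
  obtain ⟨T, hT⟩ : ∃ T : ℝ, T = ∑ a, ∑ b, ∑ d, t a b d := ⟨_, rfl⟩
  have hT0 : 0 ≤ T := by
    rw [hT]
    exact Finset.sum_nonneg fun a _ => Finset.sum_nonneg fun b _ => Finset.sum_nonneg fun d _ => h0 a b d
  have hk0 : (0 : ℝ) < k := by exact_mod_cast hk
  -- every term
  have hterm : ∀ i j l : Fin k, (∑ f : Fin k → V, t (f i) (f j) (f l)) ≤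
      n ^ k * T / n ^ 3 + (if i = j then n ^ k else 0) + (if j = l then n ^ k else 0) +
        (if i = l then n ^ k else 0) := by
    intro i j l
    have hpos : 0 ≤ n ^ k * T / n ^ 3 := by positivity
    have hnk : 0 ≤ n ^ k := by positivity
    by_cases hd : i ≠ j ∧ j ≠ l ∧ i ≠ l
    · obtain ⟨d1, d2, d3⟩ := hd
      have := triple (V := V) t d1 d2 d3
      rw [← hn, ← hT] at this
      rw [if_neg d1, if_neg d2, if_neg d3, add_zero, add_zero, add_zero, le_div_iff₀ (by positivity)]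
      exact this.le
    · have hle : (∑ f : Fin k → V, t (f i) (f j) (f l)) ≤ n ^ k := by
        calc (∑ f : Fin k → V, t (f i) (f j) (f l)) ≤ ∑ f : Fin k → V, (1 : ℝ) :=
              Finset.sum_le_sum fun f _ => h1 _ _ _
          _ = n ^ k := by
              rw [Finset.sum_const, Finset.card_univ, Fintype.card_fun, Fintype.card_fin, nsmul_eq_mul,
                mul_one, hn]
              push_cast
              rfl
      have i1 : 0 ≤ (if i = j then n ^ k else 0) := by split_ifs <;> simp [hnk]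
      have i2 : 0 ≤ (if j = l then n ^ k else 0) := by split_ifs <;> simp [hnk]
      have i3 : 0 ≤ (if i = l then n ^ k else 0) := by split_ifs <;> simp [hnk]
      by_cases e1 : i = j
      · rw [if_pos e1] at i1 ⊢; linarith
      · by_cases e2 : j = l
        · rw [if_pos e2] at i2 ⊢; linarith
        · by_cases e3 : i = l
          · rw [if_pos e3] at i3 ⊢; linarith
          · exact absurd ⟨e1, e2, e3⟩ hd
  have hsum : ∑ i : Fin k, ∑ j : Fin k, ∑ l : Fin k, (∑ f : Fin k → V, t (f i) (f j) (f l)) ≤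
      (k : ℝ) ^ 3 * (n ^ k * T / n ^ 3) + 3 * ((k : ℝ) ^ 2 * n ^ k) := by
    refine (Finset.sum_le_sum fun i _ => Finset.sum_le_sum fun j _ => Finset.sum_le_sum fun l _ =>
      hterm i j l).trans_eq ?_
    simp only [Finset.sum_add_distrib, Finset.sum_const, Finset.card_univ, Fintype.card_fin, nsmul_eq_mul,
      Finset.sum_ite_eq, Finset.mem_univ, if_true]
    have e1 : ∑ x : Fin k, ∑ y : Fin k, (k : ℝ) * (if x = y then n ^ k else 0) = (k : ℝ) ^ 2 * n ^ k := by
      simp only [mul_ite, mul_zero, Finset.sum_ite_eq, Finset.mem_univ, if_true, Finset.sum_const,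
        Finset.card_univ, Fintype.card_fin, nsmul_eq_mul]
      ring
    rw [e1]
    ring
  have hswap : ∑ i : Fin k, ∑ j : Fin k, ∑ l : Fin k, (∑ f : Fin k → V, t (f i) (f j) (f l)) =
      ∑ f : Fin k → V, ∑ i, ∑ j, ∑ l, t (f i) (f j) (f l) := by
    symm
    rw [Finset.sum_comm]
    refine Finset.sum_congr rfl fun i _ => ?_
    rw [Finset.sum_comm]
    refine Finset.sum_congr rfl fun j _ => ?_
    rw [Finset.sum_comm]
  have hlow : c * (k : ℝ) ^ 3 * ((1 - β) * n ^ k) ≤ ∑ f : Fin k → V, ∑ i, ∑ j, ∑ l, t (f i) (f j) (f l) := by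
    have hc3 : 0 ≤ c * (k : ℝ) ^ 3 := by positivity
    calc c * (k : ℝ) ^ 3 * ((1 - β) * n ^ k) ≤ c * (k : ℝ) ^ 3 * ((Badᶜ).card : ℝ) := by
          refine mul_le_mul_of_nonneg_left ?_ hc3
          have e1 : Bad.card + (Badᶜ).card = Fintype.card (Fin k → V) := Finset.card_add_card_compl Bad
          have e2 : (Bad.card : ℝ) + ((Badᶜ).card : ℝ) = n ^ k := by
            rw [Fintype.card_fun, Fintype.card_fin] at e1
            rw [hn]
            exact_mod_cast e1
          rw [← hn] at hB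
          linarith
      _ = ∑ f ∈ Badᶜ, c * (k : ℝ) ^ 3 := by rw [Finset.sum_const, nsmul_eq_mul]; ring
      _ ≤ ∑ f ∈ Badᶜ, ∑ i, ∑ j, ∑ l, t (f i) (f j) (f l) :=
          Finset.sum_le_sum fun f hf => h f (Finset.mem_compl.1 hf)
      _ ≤ _ := Finset.sum_le_univ_sum_of_nonneg fun f =>
          Finset.sum_nonneg fun i _ => Finset.sum_nonneg fun j _ => Finset.sum_nonneg fun l _ => h0 _ _ _
  rw [← hswap] at hlow
  have hall := hlow.trans hsum
  rw [← hn, ← hT]
  have hK : 0 < (k : ℝ) ^ 3 * n ^ k := by positivity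
  have hfin : ((c * (1 - β) - 3 / k) * n ^ 3) * ((k : ℝ) ^ 3 * n ^ k) ≤ T * ((k : ℝ) ^ 3 * n ^ k) := by
    have e1 : (3 : ℝ) / k * (k : ℝ) ^ 3 = 3 * (k : ℝ) ^ 2 := by field_simp
    have e2 : n ^ k * T / n ^ 3 * n ^ 3 = n ^ k * T := by field_simp
    have e3 := mul_le_mul_of_nonneg_right hall (by positivity : 0 ≤ n ^ 3)
    have e4 : ((k : ℝ) ^ 3 * (n ^ k * T / n ^ 3) + 3 * ((k : ℝ) ^ 2 * n ^ k)) * n ^ 3 =
        (k : ℝ) ^ 3 * (n ^ k * T / n ^ 3 * n ^ 3) + 3 * (k : ℝ) ^ 2 * n ^ k * n ^ 3 := by ring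
    rw [e4, e2] at e3
    have e5 : ((c * (1 - β) - 3 / k) * n ^ 3) * ((k : ℝ) ^ 3 * n ^ k) =
        c * (k : ℝ) ^ 3 * ((1 - β) * n ^ k) * n ^ 3 - (3 / k * (k : ℝ) ^ 3) * n ^ k * n ^ 3 := by ring
    rw [e5, e1]
    linarith
  exact le_of_mul_le_mul_right hfin hK

theorem card_exists {V : Type} [Fintype V] [DecidableEq V] {r k : ℕ} (B : Finset (Fin r → V)) (β : ℝ)
    (hB : (B.card : ℝ) ≤ β * (Fintype.card V : ℝ) ^ r) (hcard : 0 < Fintype.card V)
    (F : Finset (Fin k → V)) (hF : ∀ f ∈ F, ∃ h : Fin r → Fin k, Function.Injective h ∧ f ∘ h ∈ B) :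
    (F.card : ℝ) ≤ (k : ℝ) ^ r * β * (Fintype.card V : ℝ) ^ k := by
  classical
  obtain ⟨n, hn⟩ : ∃ n : ℝ, n = (Fintype.card V : ℝ) := ⟨_, rfl⟩
  have hn0 : 0 < n := by rw [hn]; exact_mod_cast hcard
  rw [← hn] at hB ⊢
  have hβ : 0 ≤ β := by
    by_contra hneg
    have h1 : β * n ^ r < 0 := mul_neg_of_neg_of_pos (not_le.1 hneg) (by positivity)
    have h2 : (0 : ℝ) ≤ B.card := Nat.cast_nonneg _
    linarith
  have hone : ∀ h : Fin r → Fin k, Function.Injective h →
      (((Finset.univ : Finset (Fin k → V)).filter fun f => f ∘ h ∈ B).card : ℝ) ≤ β * n ^ k := by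
    intro h hh
    have e1 := sum_comp (V := V) hh (fun v => if v ∈ B then (1 : ℝ) else 0)
    rw [← hn] at e1
    have e2 : ∑ f : Fin k → V, (if f ∘ h ∈ B then (1 : ℝ) else 0) =
        ((Finset.univ : Finset (Fin k → V)).filter fun f => f ∘ h ∈ B).card := by
      rw [Finset.sum_boole]
    have e3 : ∑ v : Fin r → V, (if v ∈ B then (1 : ℝ) else 0) = B.card := by
      rw [Finset.sum_boole]
      congr 2
      ext v; simp
    rw [e2, e3] at e1
    have e4 : (((Finset.univ : Finset (Fin k → V)).filter fun f => f ∘ h ∈ B).card : ℝ) * n ^ r ≤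
        (β * n ^ k) * n ^ r := by
      rw [e1]
      have := mul_le_mul_of_nonneg_left hB (by positivity : 0 ≤ n ^ k)
      linarith
    exact le_of_mul_le_mul_right e4 (by positivity)
  have hsub : F ⊆ ((Finset.univ : Finset (Fin r → Fin k)).filter fun h => Function.Injective h).biUnion
      fun h => (Finset.univ : Finset (Fin k → V)).filter fun f => f ∘ h ∈ B := by
    intro f hf
    obtain ⟨h, hh, hfB⟩ := hF f hf
    rw [Finset.mem_biUnion]
    exact ⟨h, Finset.mem_filter.2 ⟨Finset.mem_univ _, hh⟩, Finset.mem_filter.2 ⟨Finset.mem_univ _, hfB⟩⟩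
  have hc1 : (F.card : ℝ) ≤ ∑ h ∈ (Finset.univ : Finset (Fin r → Fin k)).filter fun h => Function.Injective h,
      (((Finset.univ : Finset (Fin k → V)).filter fun f => f ∘ h ∈ B).card : ℝ) := by
    have := (Finset.card_le_card hsub).trans Finset.card_biUnion_le
    exact_mod_cast this
  refine hc1.trans ?_
  calc ∑ h ∈ (Finset.univ : Finset (Fin r → Fin k)).filter fun h => Function.Injective h,
      (((Finset.univ : Finset (Fin k → V)).filter fun f => f ∘ h ∈ B).card : ℝ)
      ≤ ∑ _h ∈ (Finset.univ : Finset (Fin r → Fin k)).filter fun h => Function.Injective h, β * n ^ k :=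
        Finset.sum_le_sum fun h hh => hone h (Finset.mem_filter.1 hh).2
    _ = (((Finset.univ : Finset (Fin r → Fin k)).filter fun h => Function.Injective h).card : ℝ) * (β * n ^ k) := by
        rw [Finset.sum_const, nsmul_eq_mul]
    _ ≤ (k : ℝ) ^ r * (β * n ^ k) := by
        refine mul_le_mul_of_nonneg_right ?_ (by positivity)
        have : ((Finset.univ : Finset (Fin r → Fin k)).filter fun h => Function.Injective h).card ≤ k ^ r := by
          refine (Finset.card_filter_le _ _).trans_eq ?_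
          rw [Finset.card_univ, Fintype.card_fun, Fintype.card_fin, Fintype.card_fin]
        exact_mod_cast this
    _ = _ := by ring

end Pool.Agent.H63.MG
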